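import Mathlib

/-! Random places hidden in random faults. -/

set_option linter.unusedSectionVars false
set_option linter.unusedVariables false

namespace Pool.Agent.Y630.NW

open Finset

section

variable {E X G : Type} [Fintype E] [DecidableEq E] [Fintype X] [DecidableEq X] [Fintype G]
  [DecidableEq G] [AddCommGroup G] {D : ℕ}

/-- the faults of a pattern -/
def Flt (f : E → Fin D) : Set E := {e | (f e : ℕ) = 0}

/-- the places of each tuple are shifted -/
def shp (τ : X → G) : Equiv.Perm (X × G) :=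
  Equiv.prodShear (Equiv.refl X) (fun x => Equiv.addRight (τ x))

/-- the shift of the hyperedges -/
noncomputable def shf (slot : X × G ↪ E) (τ : X → G) : Equiv.Perm E :=
  (shp τ).viaEmbedding slot

lemma shf_slot (slot : X × G ↪ E) (τ : X → G) (x : X) (g : G) :
    shf slot τ (slot (x, g)) = slot (x, g + τ x) := by
  unfold shf
  rw [Equiv.Perm.viaEmbedding_apply]
  rfl

/-- the fault patterns that miss all the places of some tuple -/
def Bad (slot : X × G ↪ E) (D : ℕ) : Set (E → Fin D) :=
  {f | ∃ x, ∀ g, (f (slot (x, g)) : ℕ) ≠ 0}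

/-- the number of fault patterns without faults in a given set -/
lemma ncard_avoid (B : Finset E) (hD : 0 < D) :
    {f : E → Fin D | ∀ e ∈ B, (f e : ℕ) ≠ 0}.ncard = (D - 1) ^ B.card * D ^ (Fintype.card E - B.card) := by
  classical
  have h1 : {f : E → Fin D | ∀ e ∈ B, (f e : ℕ) ≠ 0} =
      ↑(Fintype.piFinset (fun e : E => if e ∈ B then
        (univ : Finset (Fin D)).erase ⟨0, hD⟩ else univ)) := by
    ext f
    simp only [Set.mem_setOf_eq, Finset.mem_coe, Fintype.mem_piFinset]
    constructor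
    · intro hf e
      by_cases he : e ∈ B
      · rw [if_pos he]
        refine Finset.mem_erase.mpr ⟨?_, mem_univ _⟩
        intro h2
        apply hf e he
        rw [h2]
      · rw [if_neg he]
        exact mem_univ _
    · intro hf e he h2
      have h3 := hf e
      rw [if_pos he] at h3
      exact (Finset.mem_erase.mp h3).1 (Fin.ext h2)
  rw [h1, Set.ncard_coe_finset, Fintype.card_piFinset]
  have h2 : ∀ e : E, (if e ∈ B then (univ : Finset (Fin D)).erase ⟨0, hD⟩ else univ).card =
      if e ∈ B then D - 1 else D := by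
    intro e
    by_cases he : e ∈ B
    · rw [if_pos he, if_pos he, Finset.card_erase_of_mem (mem_univ _), Finset.card_univ,
        Fintype.card_fin]
    · rw [if_neg he, if_neg he, Finset.card_univ, Fintype.card_fin]
  rw [Finset.prod_congr rfl (fun e _ => h2 e), Finset.prod_ite, Finset.prod_const,
    Finset.prod_const]
  congr 2
  · congr 1
    ext e
    simp
  · have h3 : (univ.filter (fun e => e ∉ B)) = Bᶜ := by
      ext e
      simp
    rw [h3, Finset.card_compl]

/-- a set of few pairs is likely to have no faults -/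
lemma avoid_half (Y : Finset E) (hD : 2 * Y.card ≤ D) (hD0 : 0 < D)
    {P : Unit × (E → Fin D) → Prop}
    (hP : ∀ v : Unit × (E → Fin D), (∀ e ∈ Y, (v.2 e : ℕ) ≠ 0) → P v) :
    (1 : ℝ) / 2 ≤ (Nat.card {v : Unit × (E → Fin D) // P v} : ℝ) /
      Nat.card (Unit × (E → Fin D)) := by
  classical
  have hDR : (0 : ℝ) < D := by exact_mod_cast hD0
  have h1 := ncard_avoid Y hD0
  have h2 : {f : E → Fin D | ∀ e ∈ Y, (f e : ℕ) ≠ 0}.ncard ≤
      Nat.card {v : Unit × (E → Fin D) // P v} := by
    have h3 : ((fun f : E → Fin D => (((), f) : Unit × (E → Fin D))) ''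
        {f : E → Fin D | ∀ e ∈ Y, (f e : ℕ) ≠ 0}) ⊆ {v | P v} := by
      rintro _ ⟨f, hf, rfl⟩
      exact hP _ hf
    have h4 := Set.ncard_le_ncard h3 (Set.toFinite _)
    rw [Set.ncard_image_of_injective _ (fun f g hh => (Prod.mk.inj hh).2)] at h4
    exact h4
  have h5 : (Nat.card (Unit × (E → Fin D)) : ℝ) = (D : ℝ) ^ Fintype.card E := by
    rw [Nat.card_eq_fintype_card, Fintype.card_prod, Fintype.card_fun, Fintype.card_fin,
      Fintype.card_unit]
    push_cast
    ring
  rw [h5, le_div_iff₀ (by positivity)]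
  have h6 : ((((D - 1) ^ Y.card * D ^ (Fintype.card E - Y.card) : ℕ)) : ℝ) ≤
      (Nat.card {v : Unit × (E → Fin D) // P v} : ℝ) := by
    rw [← h1]
    exact_mod_cast h2
  refine le_trans ?_ h6
  have hle : Y.card ≤ Fintype.card E := Finset.card_le_univ _
  have h7 : (D : ℝ) ^ Fintype.card E = (D : ℝ) ^ Y.card * (D : ℝ) ^ (Fintype.card E - Y.card) := by
    rw [← pow_add, Nat.add_sub_cancel' hle]
  push_cast [Nat.cast_sub (show 1 ≤ D from hD0)]
  rw [h7, ← mul_assoc]
  apply mul_le_mul_of_nonneg_right _ (by positivity)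
  have h8 : ((D : ℝ) - 1) = D * (1 + -(1 / (D : ℝ))) := by
    field_simp
    ring
  rw [h8, mul_pow, mul_comm]
  apply mul_le_mul_of_nonneg_left _ (by positivity)
  have h9 : (1 : ℝ) / D ≤ 1 := by
    rw [div_le_one hDR]
    exact_mod_cast hD0
  have h10 := one_add_mul_le_pow (show (-2 : ℝ) ≤ -(1 / (D : ℝ)) by linarith) Y.card
  refine le_trans ?_ h10
  have h11 : (Y.card : ℝ) * (1 / (D : ℝ)) ≤ 1 / 2 := by
    rw [mul_one_div, div_le_div_iff₀ hDR (by norm_num)]
    have : (2 : ℝ) * Y.card ≤ D := by exact_mod_cast hD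
    linarith
  linarith

/-- it is likely that there are few faults -/
lemma few_faults (hD0 : 0 < D) (h : ℕ) (hh : 2 * Fintype.card E ≤ D * (h + 1))
    {P : Unit × (E → Fin D) → Prop}
    (hP : ∀ (v : Unit × (E → Fin D)) (Z : Finset E), (↑Z : Set E) = {e | (v.2 e : ℕ) = 0} →
      Z.card ≤ h → P v) :
    (1 : ℝ) / 2 ≤ (Nat.card {v : Unit × (E → Fin D) // P v} : ℝ) /
      Nat.card (Unit × (E → Fin D)) := by
  classical
  have hDR : (0 : ℝ) < D := by exact_mod_cast hD0
  -- the number of faults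
  let cnt : (E → Fin D) → ℕ := fun f => (univ.filter (fun e : E => (f e : ℕ) = 0)).card
  have h1 : ∀ e : E, ((univ.filter (fun f : E → Fin D => (f e : ℕ) = 0)).card : ℝ) * D =
      (D : ℝ) ^ Fintype.card E := by
    intro e
    have h2 := ncard_avoid (D := D) {e} hD0
    have h3 : {f : E → Fin D | ∀ e' ∈ ({e} : Finset E), (f e' : ℕ) ≠ 0} =
        ↑(univ.filter (fun f : E → Fin D => ¬ (f e : ℕ) = 0)) := by
      ext f
      simp
    rw [h3, Set.ncard_coe_finset, Finset.card_singleton, pow_one] at h2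
    have h4 := Finset.card_filter_add_card_filter_not (s := (univ : Finset (E → Fin D)))
      (fun f : E → Fin D => (f e : ℕ) = 0)
    rw [Finset.card_univ, Fintype.card_fun, Fintype.card_fin, h2] at h4
    have hE : 1 ≤ Fintype.card E := Fintype.card_pos_iff.mpr ⟨e⟩
    have h5 : (D : ℝ) ^ Fintype.card E = D * (D : ℝ) ^ (Fintype.card E - 1) := by
      rw [← pow_succ', Nat.sub_add_cancel hE]
    have h6 : ((univ.filter (fun f : E → Fin D => (f e : ℕ) = 0)).card : ℝ) +
        ((D : ℝ) - 1) * (D : ℝ) ^ (Fintype.card E - 1) = (D : ℝ) ^ Fintype.card E := by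
      have h7 : (((univ.filter (fun f : E → Fin D => (f e : ℕ) = 0)).card +
        (D - 1) * D ^ (Fintype.card E - 1) : ℕ) : ℝ) = ((D ^ Fintype.card E : ℕ) : ℝ) := by
        rw [h4]
      push_cast [Nat.cast_sub (show 1 ≤ D from hD0)] at h7
      exact h7
    have h8 : ((univ.filter (fun f : E → Fin D => (f e : ℕ) = 0)).card : ℝ) =
        (D : ℝ) ^ (Fintype.card E - 1) := by
      rw [h5] at h6
      linarith
    rw [h8, h5, mul_comm]
  have h2 : (∑ f : E → Fin D, (cnt f : ℝ)) * D = Fintype.card E * (D : ℝ) ^ Fintype.card E := by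
    have h3 : ∑ f : E → Fin D, (cnt f : ℝ) =
        ∑ e : E, ((univ.filter (fun f : E → Fin D => (f e : ℕ) = 0)).card : ℝ) := by
      have h4 : ∀ f : E → Fin D, (cnt f : ℝ) = ∑ e : E, if (f e : ℕ) = 0 then (1 : ℝ) else 0 := by
        intro f
        simp only [cnt]
        rw [Finset.sum_boole]
      have h5 : ∀ e : E, ((univ.filter (fun f : E → Fin D => (f e : ℕ) = 0)).card : ℝ) =
          ∑ f : E → Fin D, if (f e : ℕ) = 0 then (1 : ℝ) else 0 := by
        intro e
        rw [Finset.sum_boole]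
      rw [Finset.sum_congr rfl (fun f _ => h4 f), Finset.sum_congr rfl (fun e _ => h5 e),
        Finset.sum_comm]
    rw [h3, Finset.sum_mul, Finset.sum_congr rfl (fun e _ => h1 e), Finset.sum_const,
      nsmul_eq_mul, Finset.card_univ]
  set bad : Finset (E → Fin D) := univ.filter (fun f => h < cnt f) with hbad
  have h3 : ((h : ℝ) + 1) * bad.card ≤ ∑ f : E → Fin D, (cnt f : ℝ) := by
    have h4 : ∑ f ∈ bad, ((h : ℝ) + 1) ≤ ∑ f ∈ bad, (cnt f : ℝ) := by
      apply Finset.sum_le_sum
      intro f hf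
      have h5 : h + 1 ≤ cnt f := (Finset.mem_filter.mp hf).2
      exact_mod_cast h5
    rw [Finset.sum_const, nsmul_eq_mul, mul_comm] at h4
    refine h4.trans ?_
    exact Finset.sum_le_sum_of_subset_of_nonneg (Finset.subset_univ _)
      (fun f _ _ => Nat.cast_nonneg _)
  have h4 : 2 * (bad.card : ℝ) ≤ (D : ℝ) ^ Fintype.card E := by
    have h5 : ((h : ℝ) + 1) * D * (2 * bad.card) ≤ ((h : ℝ) + 1) * D * (D : ℝ) ^ Fintype.card E := by
      have h6 := mul_le_mul_of_nonneg_right h3 hDR.le
      rw [h2] at h6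
      have h7 : (2 : ℝ) * Fintype.card E ≤ D * (h + 1) := by exact_mod_cast hh
      calc ((h : ℝ) + 1) * D * (2 * bad.card) = 2 * (((h : ℝ) + 1) * bad.card * D) := by ring
        _ ≤ 2 * (Fintype.card E * (D : ℝ) ^ Fintype.card E) := by linarith
        _ = (2 * Fintype.card E) * (D : ℝ) ^ Fintype.card E := by ring
        _ ≤ (D * (h + 1)) * (D : ℝ) ^ Fintype.card E :=
          mul_le_mul_of_nonneg_right h7 (by positivity)
        _ = ((h : ℝ) + 1) * D * (D : ℝ) ^ Fintype.card E := by ring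
    exact le_of_mul_le_mul_left h5 (by positivity)
  have h5 : (Nat.card (Unit × (E → Fin D)) : ℝ) = (D : ℝ) ^ Fintype.card E := by
    rw [Nat.card_eq_fintype_card, Fintype.card_prod, Fintype.card_fun, Fintype.card_fin,
      Fintype.card_unit]
    push_cast
    ring
  have h6 : badᶜ.card ≤ Nat.card {v : Unit × (E → Fin D) // P v} := by
    have h7 : ((fun f : E → Fin D => (((), f) : Unit × (E → Fin D))) '' (↑badᶜ : Set _)) ⊆
        {v | P v} := by
      rintro _ ⟨f, hf, rfl⟩
      refine hP _ (univ.filter (fun e : E => (f e : ℕ) = 0)) (by ext e; simp) ?_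
      have h8 : f ∉ bad := Finset.mem_compl.mp (Finset.mem_coe.mp hf)
      rw [hbad, Finset.mem_filter] at h8
      push Not at h8
      exact h8 (mem_univ _)
    have h4 := Set.ncard_le_ncard h7 (Set.toFinite _)
    rw [Set.ncard_image_of_injective _ (fun f g hh => (Prod.mk.inj hh).2),
      Set.ncard_coe_finset] at h4
    exact h4
  rw [h5, le_div_iff₀ (by positivity)]
  have h7 : (bad.card : ℝ) + badᶜ.card = (D : ℝ) ^ Fintype.card E := by
    have := Finset.card_add_card_compl bad
    rw [Fintype.card_fun, Fintype.card_fin] at this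
    exact_mod_cast this
  have h8 : (badᶜ.card : ℝ) ≤ (Nat.card {v : Unit × (E → Fin D) // P v} : ℝ) := by
    exact_mod_cast h6
  linarith

/-- few patterns are bad -/
lemma ncard_bad (slot : X × G ↪ E) (hD : 0 < D) :
    ((Bad slot D).ncard : ℝ) ≤
      (Fintype.card X * (1 - 1 / (D : ℝ)) ^ Fintype.card G) * (D : ℝ) ^ Fintype.card E := by
  classical
  have hDR : (0 : ℝ) < D := by exact_mod_cast hD
  have h1 : Bad slot D = ⋃ x : X, {f : E → Fin D | ∀ g, (f (slot (x, g)) : ℕ) ≠ 0} := by
    ext f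
    simp [Bad]
  have h2 : ∀ x : X, ({f : E → Fin D | ∀ g, (f (slot (x, g)) : ℕ) ≠ 0}.ncard : ℝ) =
      (1 - 1 / (D : ℝ)) ^ Fintype.card G * (D : ℝ) ^ Fintype.card E := by
    intro x
    set B : Finset E := univ.map ⟨fun g : G => slot (x, g), fun g g' hh => by
      have := slot.injective hh
      exact (Prod.mk.inj this).2⟩ with hB
    have h3 : {f : E → Fin D | ∀ g, (f (slot (x, g)) : ℕ) ≠ 0} =
        {f : E → Fin D | ∀ e ∈ B, (f e : ℕ) ≠ 0} := by
      ext f
      simp [hB]
    have hBc : B.card = Fintype.card G := by rw [hB, Finset.card_map, Finset.card_univ]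
    have hle : Fintype.card G ≤ Fintype.card E := by rw [← hBc]; exact Finset.card_le_univ _
    rw [h3, ncard_avoid B hD, hBc]
    push_cast [Nat.cast_sub (show 1 ≤ D from hD)]
    have h4 : (D : ℝ) ^ Fintype.card E = (D : ℝ) ^ Fintype.card G *
        (D : ℝ) ^ (Fintype.card E - Fintype.card G) := by
      rw [← pow_add, Nat.add_sub_cancel' hle]
    rw [h4, ← mul_assoc, ← mul_pow]
    congr 2
    field_simp
  rw [h1]
  have h5 : ((⋃ x : X, {f : E → Fin D | ∀ g, (f (slot (x, g)) : ℕ) ≠ 0}).ncard : ℝ) ≤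
      ∑ x : X, ({f : E → Fin D | ∀ g, (f (slot (x, g)) : ℕ) ≠ 0}.ncard : ℝ) := by
    have h6 := Set.ncard_iUnion_le_of_fintype
      (fun x : X => {f : E → Fin D | ∀ g, (f (slot (x, g)) : ℕ) ≠ 0})
    exact_mod_cast h6
  refine h5.trans (le_of_eq ?_)
  rw [Finset.sum_congr rfl (fun x _ => h2 x), Finset.sum_const, nsmul_eq_mul, Finset.card_univ,
    mul_assoc]

lemma ncard_iUnion_prod {R F : Type} [Fintype R] [Fintype F] (S : R → Set F) :
    (((⋃ ρ : R, (fun f => (ρ, f)) '' S ρ : Set (R × F))).ncard : ℝ) =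
      ∑ ρ : R, ((S ρ).ncard : ℝ) := by
  classical
  have h1 : (⋃ ρ : R, (fun f => (ρ, f)) '' S ρ : Set (R × F)) =
      ↑(univ.sigma (fun ρ : R => (S ρ).toFinset) |>.map
        ⟨fun z : (_ : R) × F => (z.1, z.2), fun z z' hh => by
          obtain ⟨a, b⟩ := z
          obtain ⟨a', b'⟩ := z'
          simp only [Prod.mk.injEq] at hh
          obtain ⟨rfl, rfl⟩ := hh
          rfl⟩) := by
    ext ⟨ρ, f⟩
    simp
  rw [h1, Set.ncard_coe_finset, Finset.card_map, Finset.card_sigma]
  push_cast
  refine Finset.sum_congr rfl (fun ρ _ => ?_)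
  rw [Set.ncard_eq_toFinset_card']

/-- random faults contain random places -/
theorem hide (slot : X × G ↪ E) (hD : 0 < D) (U : Set X) (acc : (X → G) → Set E → Prop)
    (H : (X → G) → Prop)
    (hmon : ∀ τ Z Z', Z ⊆ Z' → acc τ Z' → acc τ Z)
    (hsame : ∀ τ τ' Z, (∀ x, x ∉ U → τ x = τ' x) → acc τ Z → acc τ' Z)
    (hH : ∀ τ, acc τ {e | ∃ x ∈ U, slot (x, τ x) = e} → H τ) :
    ∑ τ : X → G, ({f : E → Fin D | acc τ (Flt f)}.ncard : ℝ) ≤
      (D : ℝ) ^ Fintype.card E * ({τ : X → G | H τ}.ncard : ℝ) +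
        ((Bad slot D).ncard : ℝ) * Fintype.card (X → G) := by
  classical
  -- shift the faults
  have h1 : ∀ τ : X → G, ({f : E → Fin D | acc τ (Flt f)}.ncard : ℝ) =
      ({f : E → Fin D | acc τ (shf slot τ '' Flt f)}.ncard : ℝ) := by
    intro τ
    set e : (E → Fin D) ≃ (E → Fin D) := Equiv.arrowCongr (shf slot τ) (Equiv.refl _) with he
    have h2 : ∀ f, Flt (e f) = shf slot τ '' Flt f := by
      intro f
      ext v
      constructor
      · intro hv
        refine ⟨(shf slot τ).symm v, ?_, Equiv.apply_symm_apply _ _⟩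
        exact hv
      · rintro ⟨v, hv, rfl⟩
        show (f ((shf slot τ).symm (shf slot τ v)) : ℕ) = 0
        rw [Equiv.symm_apply_apply]
        exact hv
    have h3 : {f : E → Fin D | acc τ (Flt f)} =
        e '' {f : E → Fin D | acc τ (shf slot τ '' Flt f)} := by
      ext f
      constructor
      · intro hf
        refine ⟨e.symm f, ?_, Equiv.apply_symm_apply _ _⟩
        show acc τ (shf slot τ '' Flt (e.symm f))
        rw [← h2, Equiv.apply_symm_apply]
        exact hf
      · rintro ⟨f, hf, rfl⟩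
        show acc τ (Flt (e f))
        rw [h2]
        exact hf
    rw [h3, Set.ncard_image_of_injective _ e.injective]
  rw [Finset.sum_congr rfl (fun τ _ => h1 τ)]
  have hswap : ∑ τ : X → G, ({f : E → Fin D | acc τ (shf slot τ '' Flt f)}.ncard : ℝ) =
      ∑ f : E → Fin D, ({τ : X → G | acc τ (shf slot τ '' Flt f)}.ncard : ℝ) := by
    have h2 : ∀ τ : X → G, ({f : E → Fin D | acc τ (shf slot τ '' Flt f)}.ncard : ℝ) =
        ∑ f : E → Fin D, if acc τ (shf slot τ '' Flt f) then (1 : ℝ) else 0 := by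
      intro τ
      rw [Finset.sum_boole, Set.ncard_eq_toFinset_card']
      congr 2
      ext f
      simp
    have h3 : ∀ f : E → Fin D, ({τ : X → G | acc τ (shf slot τ '' Flt f)}.ncard : ℝ) =
        ∑ τ : X → G, if acc τ (shf slot τ '' Flt f) then (1 : ℝ) else 0 := by
      intro f
      rw [Finset.sum_boole, Set.ncard_eq_toFinset_card']
      congr 2
      ext τ
      simp
    rw [Finset.sum_congr rfl (fun x _ => h2 x), Finset.sum_congr rfl (fun x _ => h3 x),
      Finset.sum_comm]
  rw [hswap]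
  -- a good pattern
  have hgood : ∀ f : E → Fin D, f ∉ Bad slot D →
      ({τ : X → G | acc τ (shf slot τ '' Flt f)}.ncard : ℝ) ≤ ({τ : X → G | H τ}.ncard : ℝ) := by
    intro f hf
    have hf' : ∀ x, ∃ g, (f (slot (x, g)) : ℕ) = 0 := by
      intro x
      by_contra hcon
      push Not at hcon
      exact hf ⟨x, hcon⟩
    choose J hJ using hf'
    set j : X → G := fun x => if x ∈ U then J x else 0 with hj
    have h4 : (fun τ : X → G => τ + j) '' {τ : X → G | acc τ (shf slot τ '' Flt f)} ⊆
        {τ : X → G | H τ} := by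
      rintro _ ⟨τ, hτ, rfl⟩
      apply hH
      have h5 : acc (τ + j) (shf slot τ '' Flt f) := by
        refine hsame τ (τ + j) _ (fun x hx => ?_) hτ
        rw [Pi.add_apply, hj]
        simp [hx]
      refine hmon _ _ _ ?_ h5
      rintro e ⟨x, hx, rfl⟩
      refine ⟨slot (x, J x), hJ x, ?_⟩
      rw [shf_slot]
      have h10 : (τ + j) x = τ x + J x := by
        rw [Pi.add_apply, hj]
        simp only [if_pos hx]
      change slot (x, J x + τ x) = slot (x, (τ + j) x)
      rw [h10, add_comm]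
    have h6 := Set.ncard_le_ncard h4 (Set.toFinite _)
    rw [Set.ncard_image_of_injective _ (add_left_injective j)] at h6
    exact_mod_cast h6
  have hbad : ∀ f : E → Fin D, ({τ : X → G | acc τ (shf slot τ '' Flt f)}.ncard : ℝ) ≤
      Fintype.card (X → G) := by
    intro f
    have h7 := Set.ncard_le_ncard (Set.subset_univ {τ : X → G | acc τ (shf slot τ '' Flt f)})
      (Set.toFinite _)
    rw [Set.ncard_univ, Nat.card_eq_fintype_card] at h7
    exact_mod_cast h7
  have h8 : ∀ f : E → Fin D, ({τ : X → G | acc τ (shf slot τ '' Flt f)}.ncard : ℝ) ≤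
      ({τ : X → G | H τ}.ncard : ℝ) +
        (if f ∈ Bad slot D then (Fintype.card (X → G) : ℝ) else 0) := by
    intro f
    by_cases hf : f ∈ Bad slot D
    · rw [if_pos hf]
      have := hbad f
      have h9 : (0 : ℝ) ≤ ({τ : X → G | H τ}.ncard : ℝ) := Nat.cast_nonneg _
      linarith
    · rw [if_neg hf, add_zero]
      exact hgood f hf
  refine (Finset.sum_le_sum (fun f _ => h8 f)).trans (le_of_eq ?_)
  rw [Finset.sum_add_distrib, Finset.sum_const, nsmul_eq_mul, Finset.card_univ, Fintype.card_fun,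
    Fintype.card_fin]
  push_cast
  congr 1
  rw [← Finset.sum_filter, Finset.sum_const, nsmul_eq_mul, Set.ncard_eq_toFinset_card']
  congr 2
  congr 1
  ext f
  simp

end

end Pool.Agent.Y630.NW
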